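import Pool.Agent.GT.StmtsF

/-!
# Squad GT, row F_DIV: infinitely 2-divisible points are torsion points
-/

set_option autoImplicit false

namespace Pool.Agent.GT.F.H91

open Polynomial Pool.Agent.NJ

noncomputable section

theorem tor {A : Type} [AddCommGroup A] (P : ℕ → A) (hP : ∀ k, P k = P (k + 1) + P (k + 1))
    (j k : ℕ) (hjk : j ≠ k) (hpm : P j = P k ∨ P j = -P k) : ∃ n : ℕ, 0 < n ∧ n • P 0 = 0 := by
  have hpow : ∀ a b : ℕ, P a = 2 ^ b • P (a + b) := by
    intro a b
    induction b with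
    | zero => simp
    | succ b ih =>
      rw [ih, hP (a + b), ← two_nsmul, smul_smul, ← pow_succ]
      rfl
  have main : ∀ j k : ℕ, j < k → (P j = P k ∨ P j = -P k) → ∃ n : ℕ, 0 < n ∧ n • P 0 = 0 := by
    intro j k hlt hor
    obtain ⟨d, rfl⟩ := Nat.exists_eq_add_of_lt hlt
    have h1 := hpow j (d + 1)
    rw [← add_assoc] at h1
    have h2 := hpow 0 (j + d + 1)
    rw [Nat.zero_add] at h2
    have h4 : 2 ≤ 2 ^ (d + 1) := by
      calc 2 = 2 ^ 1 := by norm_num
        _ ≤ 2 ^ (d + 1) := Nat.pow_le_pow_right (by norm_num) (by omega)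
    rcases hor with h | h
    · refine ⟨2 ^ (d + 1) - 1, by omega, ?_⟩
      have h3 : (2 ^ (d + 1) - 1) • P (j + d + 1) = 0 := by
        have h5 : (2 ^ (d + 1) - 1) • P (j + d + 1) + P (j + d + 1) = P (j + d + 1) := by
          rw [← succ_nsmul, Nat.sub_add_cancel (by omega), ← h1, h]
        exact add_eq_right.1 h5
      rw [h2, smul_comm, h3, smul_zero]
    · refine ⟨2 ^ (d + 1) + 1, by positivity, ?_⟩
      have h3 : (2 ^ (d + 1) + 1) • P (j + d + 1) = 0 := by
        rw [add_smul, one_smul, ← h1, h, neg_add_cancel]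
      rw [h2, smul_comm, h3, smul_zero]
  rcases lt_or_gt_of_ne hjk with h | h
  · exact main j k h hpm
  · refine main k j h ?_
    rcases hpm with h1 | h1
    · exact Or.inl h1.symm
    · right
      rw [h1, neg_neg]

/-- the `x`-coordinate as a quotient of polynomials, `1 / 0` at infinity -/
def nu {W : WeierstrassCurve (RatFunc ℚ)} : W.toAffine.Point → ℚ[X]
  | .zero => 1
  | .some x _ _ => x.num

def de {W : WeierstrassCurve (RatFunc ℚ)} : W.toAffine.Point → ℚ[X]
  | .zero => 0
  | .some x _ _ => x.denom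

theorem nu_deg {W : WeierstrassCurve (RatFunc ℚ)} (P : W.toAffine.Point) :
    (nu P).natDegree ≤ dP P := by
  rcases P with _ | ⟨x, y, h⟩
  · simp [nu, dP]
  · exact le_max_left _ _

theorem de_deg {W : WeierstrassCurve (RatFunc ℚ)} (P : W.toAffine.Point) :
    (de P).natDegree ≤ dP P := by
  rcases P with _ | ⟨x, y, h⟩
  · simp [de, dP]
  · exact le_max_right _ _

/-- two points with the same `x`-coordinate -/
theorem eq_or_neg {W : WeierstrassCurve (RatFunc ℚ)} (P Q : W.toAffine.Point)
    (h : nu P * de Q = nu Q * de P) : P = Q ∨ P = -Q := by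
  rcases P with _ | ⟨x, y, hx⟩ <;> rcases Q with _ | ⟨x', y', hx'⟩
  · exact Or.inl rfl
  · exfalso
    simp only [nu, de, one_mul, mul_zero] at h
    exact x'.denom_ne_zero h
  · exfalso
    simp only [nu, de, one_mul, mul_zero] at h
    exact x.denom_ne_zero h.symm
  · have hxx : x = x' := by
      rw [← x.num_div_denom, ← x'.num_div_denom, div_eq_div_iff]
      · rw [← map_mul, ← map_mul]
        exact congrArg _ h
      · exact RatFunc.algebraMap_ne_zero x.denom_ne_zero
      · exact RatFunc.algebraMap_ne_zero x'.denom_ne_zero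
    subst hxx
    rcases WeierstrassCurve.Affine.Y_eq_of_X_eq hx.1 hx'.1 rfl with h1 | h1
    · left
      subst h1
      rfl
    · right
      rw [WeierstrassCurve.Affine.Point.neg_some]
      subst h1
      rfl

/-- the points of the fibre -/
theorem eval_eq [DecidableEq ℚ] [DecidableEq (RatFunc ℚ)] {E : WeierstrassCurve ℚ[X]} {t : ℚ}
    {sp : (gen E).toAffine.Point →+ (fib E t).toAffine.Point} (hsp : IsSp E t sp)
    (P Q : (gen E).toAffine.Point) (h : sp P = sp Q) :
    (nu P * de Q - nu Q * de P).eval t = 0 := by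
  have h0 : sp (WeierstrassCurve.Affine.Point.zero) = 0 := map_zero sp
  rw [eval_sub, eval_mul, eval_mul]
  have key : ∀ R : (gen E).toAffine.Point, (sp R = 0 ∧ (de R).eval t = 0) ∨
      ∃ (x y : ℚ) (h : (fib E t).toAffine.Nonsingular x y), sp R = .some x y h ∧
        (de R).eval t ≠ 0 ∧ (nu R).eval t = x * (de R).eval t := by
    intro R
    rcases R with _ | ⟨x, y, hx⟩
    · left
      exact ⟨h0, by simp [de]⟩
    · by_cases hd : x.denom.eval t = 0
      · left
        exact ⟨hsp.2 x y hx hd, hd⟩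
      · right
        obtain ⟨h', h''⟩ := hsp.1 x y hx hd
        refine ⟨_, _, h', h'', hd, ?_⟩
        change x.num.eval t = ev t x * x.denom.eval t
        rw [ev, div_mul_cancel₀ _ hd]
  rcases key P with ⟨h1, h2⟩ | ⟨x, y, hx, h1, h2, h3⟩
  · rcases key Q with ⟨h1', h2'⟩ | ⟨x', y', hx', h1', h2', h3'⟩
    · rw [h2, h2']
      ring
    · rw [h1, h1'] at h
      exact absurd h.symm (WeierstrassCurve.Affine.Point.some_ne_zero _)
  · rcases key Q with ⟨h1', h2'⟩ | ⟨x', y', hx', h1', h2', h3'⟩
    · rw [h1, h1'] at h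
      exact absurd h (WeierstrassCurve.Affine.Point.some_ne_zero _)
    · rw [h1, h1', WeierstrassCurve.Affine.Point.some.injEq] at h
      rw [h3, h3', h.1]
      ring

theorem f_div (deg : DegStmt) (sps : SpStmt) (hgt : HgtStmt) : DivStmt := by
  classical
  intro _ E hE P hP
  obtain ⟨C, hC⟩ := deg E hE
  -- (1)
  obtain ⟨D, hD⟩ : ∃ D : ℕ, ∀ k, dP (P k) ≤ D := by
    refine ⟨max (dP (P 0)) C, ?_⟩
    intro k
    induction k with
    | zero => exact le_max_left _ _
    | succ k ih =>
      have h1 := hC (P (k + 1))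
      rw [← hP k] at h1
      have h2 := le_max_right (dP (P 0)) C
      omega
  -- (2)
  obtain ⟨T, hT, hTc⟩ : ∃ T : Finset ℚ, (∀ t ∈ T, (fib E t).Δ ≠ 0) ∧ T.card = 2 * D + 1 := by
    have hinf : {t : ℚ | E.Δ.eval t ≠ 0}.Infinite := by
      have hfin : {t : ℚ | E.Δ.eval t = 0}.Finite := by
        refine (Finset.finite_toSet E.Δ.roots.toFinset).subset ?_
        intro t ht
        simp only [Finset.mem_coe, Multiset.mem_toFinset]
        rw [mem_roots hE]
        exact ht
      have := hfin.infinite_compl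
      exact this
    obtain ⟨T, hT, hc⟩ := hinf.exists_subset_card_eq (2 * D + 1)
    refine ⟨T, fun t ht => ?_, hc⟩
    have h1 : (fib E t).Δ = E.Δ.eval t := by
      rw [fib, WeierstrassCurve.map_Δ]
      rfl
    rw [h1]
    exact hT ht
  choose sp hsp using fun t : T => sps E t (hT t t.2)
  -- (3)
  have hfin : ∀ t : T, ∃ B : ℝ, ∀ k, ht (sp t (P k)) ≤ B := by
    intro t
    obtain ⟨⟨C', hC'⟩, hpos, -⟩ := hgt (fib E t) (hT t t.2)
    refine ⟨max (ht (sp t (P 0))) (C' + ht (0 : (fib E t).toAffine.Point)), ?_⟩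
    intro k
    induction k with
    | zero => exact le_max_left _ _
    | succ k ih =>
      have h1 := hC' (sp t (P (k + 1))) (sp t (P (k + 1)))
      rw [← map_add, ← hP k, sub_self] at h1
      have h3 := (abs_le.1 h1).1
      have h4 := le_max_right (ht (sp t (P 0))) (C' + ht (0 : (fib E t).toAffine.Point))
      have h5 := hpos (sp t (P (k + 1)))
      linarith
  choose B hB using hfin
  have hfin2 : ∀ t : T, Finite {Q : (fib E t).toAffine.Point // ht Q ≤ B t} := fun t =>
    ((hgt (fib E t) (hT t t.2)).2.2 (B t)).to_subtype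
  obtain ⟨j, k, hjk, heq⟩ := Finite.exists_ne_map_eq_of_infinite
    (fun (k : ℕ) (t : T) => (⟨sp t (P k), hB t k⟩ : {Q : (fib E t).toAffine.Point // ht Q ≤ B t}))
  have heq' : ∀ t : T, sp t (P j) = sp t (P k) := fun t =>
    congrArg Subtype.val (congrFun heq t)
  -- (5)
  have hpoly : nu (P j) * de (P k) - nu (P k) * de (P j) = 0 := by
    refine Polynomial.eq_zero_of_natDegree_lt_card_of_eval_eq_zero' _ T ?_ ?_
    · intro t ht
      exact eval_eq (hsp ⟨t, ht⟩) _ _ (heq' ⟨t, ht⟩)
    · rw [hTc]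
      have h1 := natDegree_mul_le (p := nu (P j)) (q := de (P k))
      have h2 := natDegree_mul_le (p := nu (P k)) (q := de (P j))
      have h3 := natDegree_sub_le (nu (P j) * de (P k)) (nu (P k) * de (P j))
      have h4 := nu_deg (P j)
      have h5 := nu_deg (P k)
      have h6 := de_deg (P j)
      have h7 := de_deg (P k)
      have h8 := hD j
      have h9 := hD k
      omega
  have hpm := eq_or_neg (P j) (P k) (sub_eq_zero.1 hpoly)
  exact tor P hP j k hjk hpm

end

end Pool.Agent.GT.F.H91
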