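import Pool.Agent.GT.StmtsB

/-!
# B_PSA: the average of products over the linear forms is an average over progressions (squad GT)
-/

set_option autoImplicit false

namespace Pool.Agent.GT.H91

open Finset

theorem psa : PsaStmt := by
  classical
  intro K N _ hK f
  -- the first term and the difference
  set A : (Fin K → ZMod N) → ZMod N := fun x => ∑ i : Fin K, ((i : ℕ) : ZMod N) * x i with hA
  set D : (Fin K → ZMod N) → ZMod N := fun x => ∑ i : Fin K, x i with hD
  set G : ZMod N × ZMod N → ℝ := fun q => ∏ j : Fin K, f j (q.1 + ((j : ℕ) : ZMod N) * q.2) with hG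
  have hpsi : ∀ (j : Fin K) (x : Fin K → ZMod N),
      psi j x = A x + ((j : ℕ) : ZMod N) * (- D x) := by
    intro j x
    unfold psi
    simp only [hA, hD, sub_mul, Finset.sum_sub_distrib, ← Finset.mul_sum]
    ring
  have hF : (fun x : Fin K → ZMod N => ∏ j, f j (psi j x)) = fun x => G (A x, - D x) := by
    funext x
    simp only [hG, hpsi]
  rw [hF]
  set i0 : Fin K := ⟨0, by omega⟩ with hi0
  set i1 : Fin K := ⟨1, by omega⟩ with hi1
  set v : ZMod N × ZMod N → Fin K → ZMod N := fun q => Pi.single i0 q.2 + Pi.single i1 q.1 with hv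
  have hAv : ∀ x q, A (x + v q) = A x + q.1 := by
    intro x q
    simp only [hA, hv, Pi.add_apply, mul_add, Finset.sum_add_distrib]
    have h0 : ∑ i : Fin K, ((i : ℕ) : ZMod N) * (Pi.single i0 q.2 : Fin K → ZMod N) i = 0 := by
      rw [Finset.sum_eq_single i0]
      · simp [hi0]
      · intro b _ hb
        rw [Pi.single_eq_of_ne hb, mul_zero]
      · intro h; exact absurd (Finset.mem_univ _) h
    have h1 : ∑ i : Fin K, ((i : ℕ) : ZMod N) * (Pi.single i1 q.1 : Fin K → ZMod N) i = q.1 := by
      rw [Finset.sum_eq_single i1]
      · simp [hi1]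
      · intro b _ hb
        rw [Pi.single_eq_of_ne hb, mul_zero]
      · intro h; exact absurd (Finset.mem_univ _) h
    rw [h0, h1]
    ring
  have hDv : ∀ x q, D (x + v q) = D x + (q.2 + q.1) := by
    intro x q
    simp only [hD, hv, Pi.add_apply, Finset.sum_add_distrib]
    rw [Finset.sum_pi_single', Finset.sum_pi_single']
    simp
  have h1 : ∀ q : ZMod N × ZMod N, av (fun x => G (A x, - D x)) =
      av (fun x => G (A x + q.1, - (D x + (q.2 + q.1)))) := by
    intro q
    have h := av_equiv (Equiv.addRight (v q)) (fun x : Fin K → ZMod N => G (A x, - D x))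
    rw [← h]
    congr 1
    funext x
    simp only [Equiv.coe_addRight, hAv, hDv]
  have h2 : av (fun x => G (A x, - D x)) =
      av (fun q : ZMod N × ZMod N => av (fun x => G (A x + q.1, - (D x + (q.2 + q.1))))) := by
    rw [← av_const (α := ZMod N × ZMod N) (av (fun x => G (A x, - D x)))]
    congr 1
    funext q
    exact h1 q
  rw [h2, av_comm]
  have h3 : ∀ x : Fin K → ZMod N,
      av (fun q : ZMod N × ZMod N => G (A x + q.1, - (D x + (q.2 + q.1)))) = av G := by
    intro x
    let e : ZMod N × ZMod N ≃ ZMod N × ZMod N :=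
      { toFun := fun q => (A x + q.1, - (D x + (q.2 + q.1)))
        invFun := fun r => (r.1 - A x, - r.2 - D x - (r.1 - A x))
        left_inv := fun q => by
          ext
          · simp
          · simp
        right_inv := fun r => by
          ext
          · simp
          · simp }
    exact av_equiv e G
  simp only [h3]
  rw [av_const]

end Pool.Agent.GT.H91
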