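import Pool.Agent.GT.StmtsD

/-!
# D_SPL: polynomials with rational roots (squad GT)
-/

set_option autoImplicit false

namespace Pool.Agent.GT.D.H91

open Polynomial

theorem spl : SplStmt := by
  classical
  intro x hx h
  obtain ⟨q, hq1, hq2, hq3⟩ := Polynomial.exists_prod_multiset_X_sub_C_mul x
  have hq0 : q ≠ 0 := by
    rintro rfl
    rw [mul_zero] at hq1
    exact hx hq1.symm
  have hdeg : q.natDegree = 0 := by
    by_contra hne
    have h1 : q.degree ≠ 0 := by
      intro h0
      exact hne (natDegree_eq_zero_iff_degree_le_zero.2 h0.le)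
    obtain ⟨t, ht⟩ := IsAlgClosed.exists_aeval_eq_zero ℂ q h1
    have h2 : aeval t x = 0 := by
      rw [← hq1, map_mul, ht, mul_zero]
    obtain ⟨c, rfl⟩ := h t h2
    have h3 : aeval ((algebraMap ℚ ℂ) c) q = (algebraMap ℚ ℂ) (q.eval c) :=
      aeval_algebraMap_apply_eq_algebraMap_eval c q
    have h4 : (algebraMap ℚ ℂ) (q.eval c) = 0 := by
      rw [← h3]
      exact ht
    have h5 : q.eval c = 0 := by
      rwa [map_eq_zero] at h4
    have h6 : c ∈ q.roots := (mem_roots hq0).2 h5
    rw [hq3] at h6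
    exact absurd h6 (Multiset.notMem_zero c)
  obtain ⟨k, hk⟩ : ∃ k : ℚ, q = C k := ⟨q.coeff 0, eq_C_of_natDegree_eq_zero hdeg⟩
  have hmon : (x.roots.map fun a => X - C a).prod.Monic :=
    monic_multiset_prod_of_monic _ _ fun a _ => monic_X_sub_C a
  have hlead : x.leadingCoeff = k := by
    conv_lhs => rw [← hq1, hk]
    rw [leadingCoeff_mul, hmon.leadingCoeff, one_mul, leadingCoeff_C]
  have hprod : (x.roots.map fun a => X - C a).prod =
      ∏ c ∈ x.roots.toFinset, (X - C c) ^ x.rootMultiplicity c := by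
    rw [Finset.prod_multiset_map_count]
    refine Finset.prod_congr rfl fun c _ => ?_
    rw [count_roots]
  rw [hlead, ← hprod, ← hk, mul_comm]
  exact hq1.symm

end Pool.Agent.GT.D.H91
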