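import Pool.Agent.GT.StmtsB

/-!
# B_PSD: from the cut norm at `0` to the canonical cut norm (squad GT)
-/

set_option autoImplicit false

namespace Pool.Agent.GT.H91

open Finset

theorem psd : PsdStmt := by
  classical
  intro K N _ hN h ε hcut u hind hb
  have hcop : ∀ l : Fin K, Nat.Coprime ((l : ℕ) + 1) N := by
    intro l
    have h1 : ((l : ℕ) + 1) ∣ K.factorial := Nat.dvd_factorial (Nat.succ_pos _) l.2
    exact (hN.coprime_dvd_right h1).symm
  set U : Fin K → (ZMod N)ˣ := fun l => ZMod.unitOfCoprime ((l : ℕ) + 1) (hcop l) with hU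
  have hUc : ∀ l, ((U l : (ZMod N)ˣ) : ZMod N) = (((l : ℕ) + 1 : ℕ) : ZMod N) := fun l => rfl
  set Y : (Fin K → ZMod N) ≃ (Fin K → ZMod N) :=
    Equiv.piCongrRight (fun l => Units.mulLeft (U l)) with hY
  have hYa : ∀ w l, Y w l = (((l : ℕ) + 1 : ℕ) : ZMod N) * w l := by
    intro w l
    rfl
  set u' : Fin (K + 1) → (Fin (K + 1) → ZMod N) → ℝ :=
    Fin.cons (fun _ => 1) (fun i x => u i (Y (fun l => x l.succ))) with hu'
  have hu0 : u' 0 = fun _ => 1 := rfl
  have hus : ∀ i : Fin K, u' i.succ = fun x => u i (Y (fun l => x l.succ)) := fun i => by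
    rw [hu', Fin.cons_succ]
  have hind' : ∀ i, Ind i (u' i) := by
    intro i
    refine Fin.cases ?_ (fun i => ?_) i
    · intro x s
      rw [hu0]
    · intro x s
      rw [hus]
      have h1 : Y (fun l => Function.update x i.succ s l.succ) =
          Function.update (Y (fun l => x l.succ)) i ((((i : ℕ) + 1 : ℕ) : ZMod N) * s) := by
        funext l
        rw [hYa]
        by_cases hl : l = i
        · subst hl
          simp
        · rw [Function.update_of_ne hl, Function.update_of_ne
            (fun h0 => hl (Fin.succ_injective _ h0)), hYa]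
      show u i _ = u i _
      rw [h1]
      exact hind i _ _
  have hb' : ∀ i x, |u' i x| ≤ 1 := by
    intro i x
    revert i
    refine Fin.cases ?_ (fun i => ?_)
    · rw [hu0]; simp
    · rw [hus]; exact hb i _
  have h1 := hcut u' hind' hb'
  have h2 : (fun x : Fin (K + 1) → ZMod N => h (psi 0 x) * ∏ i ∈ univ.erase 0, u' i x) =
      fun x => h (∑ l : Fin K, Y (fun l => x l.succ) l) *
        ∏ i : Fin K, u i (Y (fun l => x l.succ)) := by
    funext x
    have h3 : psi 0 x = ∑ l : Fin K, Y (fun l => x l.succ) l := by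
      unfold psi
      rw [Fin.sum_univ_succ]
      simp only [hYa]
      simp
    have h4 : ∏ i ∈ univ.erase 0, u' i x = ∏ i : Fin K, u i (Y (fun l => x l.succ)) := by
      have h5 : u' 0 x * ∏ i ∈ univ.erase 0, u' i x = ∏ i, u' i x :=
        Finset.mul_prod_erase univ (fun i => u' i x) (Finset.mem_univ 0)
      rw [Fin.prod_univ_succ] at h5
      have h6 : u' 0 x = 1 := by rw [hu0]
      rw [h6, one_mul, one_mul] at h5
      rw [h5]
      refine Finset.prod_congr rfl fun i _ => ?_
      rw [hus]
    rw [h3, h4]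
  rw [h2] at h1
  have h3 : av (fun x : Fin (K + 1) → ZMod N => h (∑ l : Fin K, Y (fun l => x l.succ) l) *
        ∏ i : Fin K, u i (Y (fun l => x l.succ))) =
      av (fun y : Fin K → ZMod N => h (∑ i, y i) * ∏ i, u i y) := by
    have e1 := av_equiv (Fin.consEquiv (fun _ : Fin (K + 1) => ZMod N))
      (fun x : Fin (K + 1) → ZMod N => h (∑ l : Fin K, Y (fun l => x l.succ) l) *
        ∏ i : Fin K, u i (Y (fun l => x l.succ)))
    rw [← e1, av_prod]
    have e2 : ∀ t : ZMod N, av (fun w : Fin K → ZMod N =>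
        h (∑ l : Fin K, Y (fun l => Fin.consEquiv (fun _ : Fin (K + 1) => ZMod N) (t, w) l.succ) l) *
        ∏ i : Fin K, u i (Y (fun l =>
          Fin.consEquiv (fun _ : Fin (K + 1) => ZMod N) (t, w) l.succ))) =
        av (fun y : Fin K → ZMod N => h (∑ i, y i) * ∏ i, u i y) := by
      intro t
      exact av_equiv Y (fun y : Fin K → ZMod N => h (∑ i, y i) * ∏ i, u i y)
    have e3 : (fun a : ZMod N => av (fun w : Fin K → ZMod N =>
        h (∑ l : Fin K, Y (fun l => Fin.consEquiv (fun _ : Fin (K + 1) => ZMod N) (a, w) l.succ) l) *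
        ∏ i : Fin K, u i (Y (fun l =>
          Fin.consEquiv (fun _ : Fin (K + 1) => ZMod N) (a, w) l.succ)))) = fun _ =>
        av (fun y : Fin K → ZMod N => h (∑ i, y i) * ∏ i, u i y) := funext e2
    exact (congrArg av e3).trans (av_const _)
  rw [h3] at h1
  exact h1

end Pool.Agent.GT.H91
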